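import Pool.Agent.Helper97.EKC.Sharp
import Pool.Agent.Helper58.CKC.FinC

set_option autoImplicit false
open Complex MeasureTheory Metric Set
open scoped Real ComplexConjugate

/-! Final assembly of the exact spectrum, projects CK and CKC: the lower bound for every exponent
`t` with `|t| > 1` which is not a positive number, and the passage from moments of `ψ'` of real
order to the exponential form. -/

namespace Pool.Agent.Helper96.CKF

open Pool.Agent.Helper58.CKC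

/-- the circle means of `|exp (t h)|` are at least `c (R²/(R²-1))^s` for one function of the
class -/
def LowC (t : ℂ) (s : ℝ) : Prop :=
  ∃ ψ h : ℂ → ℂ, DifferentiableOn ℂ ψ {z : ℂ | 1 < ‖z‖} ∧
    InjOn ψ {z : ℂ | 1 < ‖z‖} ∧
    (∃ b : ℂ, Filter.Tendsto (fun z => ψ z - z) (Bornology.cobounded ℂ) (nhds b)) ∧
    DifferentiableOn ℂ h {z : ℂ | 1 < ‖z‖} ∧
    (∀ z : ℂ, 1 < ‖z‖ → Complex.exp (h z) = deriv ψ z) ∧
    Filter.Tendsto h (Bornology.cobounded ℂ) (nhds 0) ∧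
    ∃ c : ℝ, 0 < c ∧ ∀ R : ℝ, 1 < R →
      c * (R ^ 2 / (R ^ 2 - 1)) ^ s ≤
        (2 * π)⁻¹ *
          (∫ θ in (0:ℝ)..(2 * π), ‖Complex.exp (t * h (R * Complex.exp (θ * I)))‖)

theorem lowC {t : ℂ} (h1 : 1 < ‖t‖) (h2 : t.re < ‖t‖) : LowC t (‖t‖ - 1) := by
  have hn0 : 0 < ‖t‖ := by linarith
  set u : ℂ := -(conj t / ‖t‖) with hu
  have hu1 : ‖u‖ = 1 := by
    rw [hu, norm_neg, norm_div, RCLike.norm_conj, Complex.norm_real, norm_norm, div_self hn0.ne']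
  have hre : u.re = -(t.re / ‖t‖) := by
    rw [hu, Complex.neg_re, Complex.div_ofReal_re, Complex.conj_re]
  have hne : u ≠ -1 := by
    intro h
    have h1 : u.re = -1 := by rw [h]; simp
    rw [hre] at h1
    have h2 : t.re / ‖t‖ = 1 := by linarith
    rw [div_eq_one_iff_eq hn0.ne'] at h2
    linarith
  obtain ⟨ψ, h, a1, a2, a3, a4, a5, a6, a7⟩ := Pool.Agent.Helper97.EKC.sharp_u hu1 hne
  obtain ⟨c, hc, hR⟩ := a7 ‖t‖ h1
  refine ⟨ψ, h, a1, a2, a3, a4, a5, a6, c, hc, fun R h1 => ?_⟩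
  have h2 := hR R h1
  have hnC : (‖t‖ : ℂ) ≠ 0 := by exact_mod_cast hn0.ne'
  have h7 : -((‖t‖ : ℝ) : ℂ) * conj u = t := by
    rw [hu, map_neg, map_div₀, Complex.conj_conj, Complex.conj_ofReal]
    field_simp
  simp only [Complex.norm_exp]
  simp only [h7] at h2
  exact h2

/-- negative real exponents, from the moments of `ψ'` -/
theorem sig_real {p s : ℝ} {t : ℂ} (ht : t = ((-p : ℝ) : ℂ))
    (H : ∃ C : ℝ, ∀ ψ : ℂ → ℂ,
      DifferentiableOn ℂ ψ {z : ℂ | 1 < ‖z‖} → InjOn ψ {z : ℂ | 1 < ‖z‖} →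
      (∃ b : ℂ, Filter.Tendsto (fun z => ψ z - z) (Bornology.cobounded ℂ) (nhds b)) →
      ∀ R : ℝ, 1 < R →
      (2 * π)⁻¹ * (∫ θ in (0:ℝ)..(2 * π), ‖deriv ψ (R * Complex.exp (θ * I))‖ ^ (-p)) ≤
        C * (R ^ 2 / (R ^ 2 - 1)) ^ s) : SigC t s := by
  obtain ⟨C, hC⟩ := H
  refine ⟨C, fun ψ h a1 a2 a3 a4 a5 a6 R h1 => ?_⟩
  refine le_of_eq_of_le ?_ (hC ψ a1 a2 a3 R h1)
  congr 1
  refine intervalIntegral.integral_congr fun θ _ => ?_
  have hz : 1 < ‖(R : ℂ) * Complex.exp (θ * I)‖ := by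
    rw [norm_mul, Complex.norm_exp_ofReal_mul_I, mul_one, Complex.norm_real, Real.norm_eq_abs]
    exact lt_of_lt_of_le h1 (le_abs_self R)
  have hw := a5 _ hz
  rw [← hw, Complex.norm_exp, Complex.norm_exp, ← Real.exp_mul, ht, Complex.re_ofReal_mul]
  congr 1
  ring

/-- a larger exponent -/
theorem sig_mono {t : ℂ} {s s' : ℝ} (hs : s ≤ s') (H : SigC t s) : SigC t s' := by
  obtain ⟨C, hC⟩ := H
  refine ⟨max C 0, fun ψ h a1 a2 a3 a4 a5 a6 R h1 => (hC ψ h a1 a2 a3 a4 a5 a6 R h1).trans ?_⟩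
  have h2 : 0 < R ^ 2 - 1 := by nlinarith
  have h3 : 1 ≤ R ^ 2 / (R ^ 2 - 1) := by
    rw [one_le_div h2]; linarith
  have h4 : (R ^ 2 / (R ^ 2 - 1)) ^ s ≤ (R ^ 2 / (R ^ 2 - 1)) ^ s' :=
    Real.rpow_le_rpow_of_exponent_le h3 hs
  have h5 : 0 ≤ (R ^ 2 / (R ^ 2 - 1)) ^ s := by positivity
  calc C * (R ^ 2 / (R ^ 2 - 1)) ^ s ≤ max C 0 * (R ^ 2 / (R ^ 2 - 1)) ^ s :=
        mul_le_mul_of_nonneg_right (le_max_left _ _) h5
    _ ≤ max C 0 * (R ^ 2 / (R ^ 2 - 1)) ^ s' :=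
        mul_le_mul_of_nonneg_left h4 (le_max_right _ _)

theorem norm_neg_real {t : ℂ} (him : t.im = 0) (hre : t.re ≤ 0) : ‖t‖ = -t.re := by
  have h1 : t = ((t.re : ℝ) : ℂ) := by
    apply Complex.ext
    · simp
    · simp [him]
  rw [h1, Complex.norm_real, Real.norm_eq_abs, abs_of_nonpos hre, Complex.ofReal_re]

/-- both bounds for a negative real exponent, from the moments of order `-p`, `p ≥ κ` -/
theorem real_both {κ : ℝ} (hκ : 1 < κ)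
    (H : ∀ p : ℝ, κ ≤ p → ∀ e : ℝ, 0 < e → ∃ C : ℝ, ∀ ψ : ℂ → ℂ,
      DifferentiableOn ℂ ψ {z : ℂ | 1 < ‖z‖} → InjOn ψ {z : ℂ | 1 < ‖z‖} →
      (∃ b : ℂ, Filter.Tendsto (fun z => ψ z - z) (Bornology.cobounded ℂ) (nhds b)) →
      ∀ R : ℝ, 1 < R →
      (2 * π)⁻¹ * (∫ θ in (0:ℝ)..(2 * π), ‖deriv ψ (R * Complex.exp (θ * I))‖ ^ (-p)) ≤
        C * (R ^ 2 / (R ^ 2 - 1)) ^ (p - 1 + e))
    {t : ℂ} (him : t.im = 0) (hre : t.re ≤ -κ) {e : ℝ} (he : 0 < e) :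
    SigC t (‖t‖ - 1 + e) ∧ LowC t (‖t‖ - 1) := by
  have h1 : t = ((-(-t.re) : ℝ) : ℂ) := by
    apply Complex.ext
    · simp
    · simp [him]
  have hn : ‖t‖ = -t.re := by
    rw [h1, Complex.norm_real, Real.norm_eq_abs, abs_of_nonpos (by linarith)]
    simp
  refine ⟨?_, lowC (by rw [hn]; linarith) (by rw [hn]; linarith)⟩
  rw [hn]
  exact sig_real h1 (H (-t.re) (by linarith) e he)

end Pool.Agent.Helper96.CKF
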