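import Pool.Agent.Helper96.EKC.Asm
import Pool.Agent.Helper96.CKF.Gen

set_option autoImplicit false
open Complex MeasureTheory Metric Set
open scoped Real ComplexConjugate

/-! The region of project EKC in the form needed for the final assembly. -/

namespace Pool.Agent.Helper96.CKF

open Pool.Agent.Helper58.CKC

theorem sig_cover (cover : Pool.Agent.Helper96.EKC.Cover) {t : ℂ} (ht0 : t ≠ 0)
    (hreg : 9 * (3 * ‖t‖ - t.re) ≤ 4 * ‖t‖ * (‖t‖ - t.re)) {e : ℝ} (he : 0 ≤ e) :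
    SigC t (‖t‖ - 1 + e) :=
  sig_mono (by linarith) (Pool.Agent.Helper96.EKC.upper cover ht0 hreg)

theorem reg_low {t : ℂ} (ht0 : t ≠ 0)
    (hreg : 9 * (3 * ‖t‖ - t.re) ≤ 4 * ‖t‖ * (‖t‖ - t.re)) : 1 < ‖t‖ ∧ t.re < ‖t‖ := by
  have hn0 : 0 < ‖t‖ := norm_pos_iff.mpr ht0
  have hre1 : t.re ≤ ‖t‖ := Complex.re_le_norm t
  have hd : 0 < ‖t‖ - t.re := by nlinarith
  have h94 : 9 / 4 < ‖t‖ := by
    by_contra hc
    push Not at hc
    nlinarith
  exact ⟨by linarith, by linarith⟩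

end Pool.Agent.Helper96.CKF
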