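import Pool.Agent.Helper65.CKY.Ray
import Pool.Agent.Helper96.CKF.Cov

set_option autoImplicit false

/-!
# The closed right half plane: `|t| - Re t ≥ 2 c`
-/

namespace Pool.Agent.Helper96.CKF

open Pool.Agent.Helper58.CKC (SigC)
open Pool.Agent.Helper65.CKY (SecU ray_all)

/-- the cone `Re t ≥ 0` -/
theorem cone {c : ℝ} (hc : 1 < c) (H : SecU c c (1/1)) {t : ℂ} (ht : t ≠ 0) (hre : 0 ≤ t.re)
    (h : 2 * c ≤ ‖t‖ - t.re) {e : ℝ} (he : 0 < e) :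
    SigC t (‖t‖ - 1 + e) ∧ LowC t (‖t‖ - 1) := by
  have hn : 0 ≤ ‖t‖ := norm_nonneg t
  have h3 := ray_all hc (by linarith) H ht ⟨by
    have : ((1:ℝ) / 1) ^ 2 = 1 := by norm_num
    rw [this]; linarith, by
    have h1 : ‖t‖ * (2 * c) ≤ ‖t‖ * (‖t‖ - t.re) := mul_le_mul_of_nonneg_left h hn
    linarith⟩
  exact ⟨h3.1 e he, h3.2⟩

end Pool.Agent.Helper96.CKF
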