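import Pool.Agent.Helper65.CKC.SecI
import Pool.Agent.Helper96.CKF.Cov

set_option autoImplicit false

/-!
# The closed left half plane, from two arcs of directions
-/

namespace Pool.Agent.Helper96.CKF

open Pool.Agent.Helper58.CKC (SigC)
open Pool.Agent.Helper33.CKC (SecH sec_all)
open Pool.Agent.Helper65.CKC (SecI arc_all)

/-- the arcs `0 ≤ τ ≤ 1/2` and `1/2 ≤ τ ≤ 1`; on the left half plane both inequalities are
assumed, so that only the larger threshold matters -/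
theorem two_arcs {a b a' b' : ℝ} (ha : 1 < a) (hb : 0 ≤ b) (ha' : 1 < a') (hb' : 0 ≤ b')
    (HA : SecH a b (1/2)) (HB : SecI a' b' (1/2) (1/1)) {t : ℂ} (ht : t ≠ 0) (hre : t.re ≤ 0)
    (h1 : a * (‖t‖ - t.re) + b * (‖t‖ + t.re) ≤ ‖t‖ * (‖t‖ - t.re))
    (h2 : a' * (‖t‖ - t.re) + b' * (‖t‖ + t.re) ≤ ‖t‖ * (‖t‖ - t.re)) {e : ℝ} (he : 0 < e) :
    SigC t (‖t‖ - 1 + e) ∧ LowC t (‖t‖ - 1) := by
  rcases le_total (4 * (‖t‖ + t.re)) (‖t‖ - t.re) with h | h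
  · have h3 := sec_all ha hb (by norm_num) HA ht ⟨by
      have : ((1:ℝ) / 2) ^ 2 = 1 / 4 := by norm_num
      rw [this]; linarith, h1⟩
    exact ⟨h3.1 e he, h3.2⟩
  · have h3 := arc_all ha' hb' (by norm_num) HB ht ⟨by
      have : ((1:ℝ) / 2) ^ 2 = 1 / 4 := by norm_num
      rw [this]; linarith, by
      have : ((1:ℝ) / 1) ^ 2 = 1 := by norm_num
      rw [this]; linarith, h2⟩
    exact ⟨h3.1 e he, h3.2⟩

/-- the same with a different threshold on each arc -/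
theorem two_arcs' {a b a' b' : ℝ} (ha : 1 < a) (hb : 0 ≤ b) (ha' : 1 < a') (hb' : 0 ≤ b')
    (HA : SecH a b (1/2)) (HB : SecI a' b' (1/2) (1/1)) {t : ℂ} (ht : t ≠ 0)
    (h : (4 * (‖t‖ + t.re) ≤ ‖t‖ - t.re ∧
        a * (‖t‖ - t.re) + b * (‖t‖ + t.re) ≤ ‖t‖ * (‖t‖ - t.re)) ∨
      (‖t‖ - t.re ≤ 4 * (‖t‖ + t.re) ∧ t.re ≤ 0 ∧
        a' * (‖t‖ - t.re) + b' * (‖t‖ + t.re) ≤ ‖t‖ * (‖t‖ - t.re))) {e : ℝ} (he : 0 < e) :
    SigC t (‖t‖ - 1 + e) ∧ LowC t (‖t‖ - 1) := by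
  rcases h with ⟨h, h1⟩ | ⟨h, hre, h2⟩
  · have h3 := sec_all ha hb (by norm_num) HA ht ⟨by
      have : ((1:ℝ) / 2) ^ 2 = 1 / 4 := by norm_num
      rw [this]; linarith, h1⟩
    exact ⟨h3.1 e he, h3.2⟩
  · have h3 := arc_all ha' hb' (by norm_num) HB ht ⟨by
      have : ((1:ℝ) / 2) ^ 2 = 1 / 4 := by norm_num
      rw [this]; linarith, by
      have : ((1:ℝ) / 1) ^ 2 = 1 := by norm_num
      rw [this]; linarith, h2⟩
    exact ⟨h3.1 e he, h3.2⟩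

end Pool.Agent.Helper96.CKF
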