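import Pool.Agent.Helper71.CK.C2.Main
import Pool.Agent.Helper71.EKC.Oct
import Pool.Agent.Helper96.CKF.Cov

set_option autoImplicit false

namespace Pool.Agent.Helper96.CKF.Draft

open Pool.Agent.Helper96.CKF in
/-- For every complex `t ≠ 0` with `9 (3|t| - Re t) ≤ 4 |t| (|t| - Re t)` (and `e = 0`), and for
every real `t ≤ -43/20` (and every `e > 0`), the circle means of `|exp (t h)|`, `h = log ψ'`, over
the class Sigma grow at most like the power `|t| - 1 + e` of `R² / (R² - 1)`, uniformly in the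
class, and the power `|t| - 1` is attained in the class. -/
theorem result :
    ∀ t : ℂ, t ≠ 0 → ∀ e : ℝ, 0 ≤ e →
      (9 * (3 * ‖t‖ - t.re) ≤ 4 * ‖t‖ * (‖t‖ - t.re) ∨
        (t.im = 0 ∧ t.re ≤ -(43 / 20) ∧ 0 < e)) →
      (∃ C : ℝ, ∀ ψ h : ℂ → ℂ,
        DifferentiableOn ℂ ψ {z : ℂ | 1 < ‖z‖} →
        Set.InjOn ψ {z : ℂ | 1 < ‖z‖} →
        (∃ b : ℂ, Filter.Tendsto (fun z => ψ z - z) (Bornology.cobounded ℂ) (nhds b)) →
        DifferentiableOn ℂ h {z : ℂ | 1 < ‖z‖} →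
        (∀ z : ℂ, 1 < ‖z‖ → Complex.exp (h z) = deriv ψ z) →
        Filter.Tendsto h (Bornology.cobounded ℂ) (nhds 0) →
        ∀ R : ℝ, 1 < R →
          (2 * Real.pi)⁻¹ * (∫ θ in (0:ℝ)..(2 * Real.pi),
            ‖Complex.exp (t * h (R * Complex.exp (θ * Complex.I)))‖) ≤
            C * (R ^ 2 / (R ^ 2 - 1)) ^ (‖t‖ - 1 + e)) ∧
      ∃ ψ h : ℂ → ℂ,
        DifferentiableOn ℂ ψ {z : ℂ | 1 < ‖z‖} ∧
        Set.InjOn ψ {z : ℂ | 1 < ‖z‖} ∧
        (∃ b : ℂ, Filter.Tendsto (fun z => ψ z - z) (Bornology.cobounded ℂ) (nhds b)) ∧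
        DifferentiableOn ℂ h {z : ℂ | 1 < ‖z‖} ∧
        (∀ z : ℂ, 1 < ‖z‖ → Complex.exp (h z) = deriv ψ z) ∧
        Filter.Tendsto h (Bornology.cobounded ℂ) (nhds 0) ∧
        ∃ c : ℝ, 0 < c ∧ ∀ R : ℝ, 1 < R →
          c * (R ^ 2 / (R ^ 2 - 1)) ^ (‖t‖ - 1) ≤
            (2 * Real.pi)⁻¹ * (∫ θ in (0:ℝ)..(2 * Real.pi),
              ‖Complex.exp (t * h (R * Complex.exp (θ * Complex.I)))‖) := by
  rintro t ht0 e he (hreg | ⟨him, hre, he0⟩)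
  · exact ⟨sig_cover Pool.Agent.Helper71.EKC.cover ht0 hreg he,
      lowC (reg_low ht0 hreg).1 (reg_low ht0 hreg).2⟩
  · exact real_both (by norm_num) Pool.Agent.Helper71.CK.C2.means him hre he0

end Pool.Agent.Helper96.CKF.Draft
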