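import Pool.Agent.Helper46.CK.C3.Main
import Pool.Agent.Helper71.EKC.Oct
import Pool.Agent.Helper96.CKF.Two

set_option autoImplicit false

/-!
# The form of version 6, with the two arcs as hypotheses
-/

namespace Pool.Agent.Helper96.CKF.Stub6

open Pool.Agent.Helper33.CKC (SecH)
open Pool.Agent.Helper65.CKC (SecI)

/-- `ψ` belongs to the class Sigma and `h = log ψ'` is the branch which tends to `0` at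
infinity. -/
def Sig (ψ h : ℂ → ℂ) : Prop :=
  DifferentiableOn ℂ ψ {z : ℂ | 1 < ‖z‖} ∧
  Set.InjOn ψ {z : ℂ | 1 < ‖z‖} ∧
  (∃ b : ℂ, Filter.Tendsto (fun z => ψ z - z) (Bornology.cobounded ℂ) (nhds b)) ∧
  DifferentiableOn ℂ h {z : ℂ | 1 < ‖z‖} ∧
  (∀ z : ℂ, 1 < ‖z‖ → Complex.exp (h z) = deriv ψ z) ∧
  Filter.Tendsto h (Bornology.cobounded ℂ) (nhds 0)

theorem region {a b a' b' : ℝ} (ha : 1 < a) (hb : 0 ≤ b) (ha' : 1 < a') (hb' : 0 ≤ b')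
    (HA : SecH a b (1/2)) (HB : SecI a' b' (1/2) (1/1)) :
    ∀ t : ℂ, t ≠ 0 → ∀ e : ℝ, 0 ≤ e →
      (9 * (3 * ‖t‖ - t.re) ≤ 4 * ‖t‖ * (‖t‖ - t.re) ∨
        (0 < e ∧ t.re ≤ 0 ∧ ((t.im = 0 ∧ 21 / 10 ≤ ‖t‖) ∨
          (4 * (‖t‖ + t.re) ≤ ‖t‖ - t.re ∧
            a * (‖t‖ - t.re) + b * (‖t‖ + t.re) ≤ ‖t‖ * (‖t‖ - t.re)) ∨
          (‖t‖ - t.re ≤ 4 * (‖t‖ + t.re) ∧
            a' * (‖t‖ - t.re) + b' * (‖t‖ + t.re) ≤ ‖t‖ * (‖t‖ - t.re))))) →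
      (∃ C : ℝ, ∀ ψ h : ℂ → ℂ, Sig ψ h → ∀ R : ℝ, 1 < R →
        (2 * Real.pi)⁻¹ * (∫ θ in (0:ℝ)..(2 * Real.pi),
          ‖Complex.exp (t * h (R * Complex.exp (θ * Complex.I)))‖) ≤
          C * (R ^ 2 / (R ^ 2 - 1)) ^ (‖t‖ - 1 + e)) ∧
      ∃ ψ h : ℂ → ℂ, Sig ψ h ∧ ∃ c : ℝ, 0 < c ∧ ∀ R : ℝ, 1 < R →
        c * (R ^ 2 / (R ^ 2 - 1)) ^ (‖t‖ - 1) ≤
          (2 * Real.pi)⁻¹ * (∫ θ in (0:ℝ)..(2 * Real.pi),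
            ‖Complex.exp (t * h (R * Complex.exp (θ * Complex.I)))‖) := by
  intro t ht0 e he hreg
  have key : Pool.Agent.Helper58.CKC.SigC t (‖t‖ - 1 + e) ∧
      Pool.Agent.Helper96.CKF.LowC t (‖t‖ - 1) := by
    rcases hreg with hreg | ⟨he0, hre, ⟨him, hn⟩ | ⟨h4, hs⟩ | ⟨h4, hs⟩⟩
    · exact ⟨Pool.Agent.Helper96.CKF.sig_cover Pool.Agent.Helper71.EKC.cover ht0 hreg he,
        Pool.Agent.Helper96.CKF.lowC (Pool.Agent.Helper96.CKF.reg_low ht0 hreg).1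
          (Pool.Agent.Helper96.CKF.reg_low ht0 hreg).2⟩
    · refine Pool.Agent.Helper96.CKF.real_both (by norm_num) Pool.Agent.Helper46.CK.C3.means him
        ?_ he0
      rw [Pool.Agent.Helper96.CKF.norm_neg_real him hre] at hn
      linarith
    · exact two_arcs' ha hb ha' hb' HA HB ht0 (Or.inl ⟨h4, hs⟩) he0
    · exact two_arcs' ha hb ha' hb' HA HB ht0 (Or.inr ⟨h4, hre, hs⟩) he0
  obtain ⟨⟨C, hC⟩, ψ, h, a1, a2, a3, a4, a5, a6, a7⟩ := key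
  exact ⟨⟨C, fun ψ h hs => hC ψ h hs.1 hs.2.1 hs.2.2.1 hs.2.2.2.1 hs.2.2.2.2.1 hs.2.2.2.2.2⟩,
    ψ, h, ⟨a1, a2, a3, a4, a5, a6⟩, a7⟩

/-- statement only, for the count -/
def st : Prop :=
    ∀ t : ℂ, t ≠ 0 → ∀ e : ℝ, 0 ≤ e →
      (9 * (3 * ‖t‖ - t.re) ≤ 4 * ‖t‖ * (‖t‖ - t.re) ∨
        (0 < e ∧ t.re ≤ 0 ∧ ((t.im = 0 ∧ 21 / 10 ≤ ‖t‖) ∨
          (4 * (‖t‖ + t.re) ≤ ‖t‖ - t.re ∧
            21865/10000 * (‖t‖ - t.re) + 2701/10000 * (‖t‖ + t.re) ≤ ‖t‖ * (‖t‖ - t.re)) ∨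
          (‖t‖ - t.re ≤ 4 * (‖t‖ + t.re) ∧
            21865/10000 * (‖t‖ - t.re) + 2701/10000 * (‖t‖ + t.re) ≤ ‖t‖ * (‖t‖ - t.re))))) →
      (∃ C : ℝ, ∀ ψ h : ℂ → ℂ, Sig ψ h → ∀ R : ℝ, 1 < R →
        (2 * Real.pi)⁻¹ * (∫ θ in (0:ℝ)..(2 * Real.pi),
          ‖Complex.exp (t * h (R * Complex.exp (θ * Complex.I)))‖) ≤
          C * (R ^ 2 / (R ^ 2 - 1)) ^ (‖t‖ - 1 + e)) ∧
      ∃ ψ h : ℂ → ℂ, Sig ψ h ∧ ∃ c : ℝ, 0 < c ∧ ∀ R : ℝ, 1 < R →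
        c * (R ^ 2 / (R ^ 2 - 1)) ^ (‖t‖ - 1) ≤
          (2 * Real.pi)⁻¹ * (∫ θ in (0:ℝ)..(2 * Real.pi),
            ‖Complex.exp (t * h (R * Complex.exp (θ * Complex.I)))‖)

end Pool.Agent.Helper96.CKF.Stub6
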